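import Pool.Agent.P.MP_c64be1_ag.Asy.Main

namespace Pool.Agent.Results.MP_c64be1_ag.LargeN

open Pool.Agent.P.MP_c64be1_ag

/-- For every degree `k ≥ 3` and every `r ≥ 1`, the generic `Sub_r (S^k V)`-rank is the value
given by the dimension count as soon as `n = dim V` exceeds an explicit bound. -/
theorem result (n k r : ℕ) (hk : 3 ≤ k) (hr : 1 ≤ r)
    (hn : 10 ^ 5 * (k * (r + 1)) ^ 3 + 100 * (r + k - 1).choose k ≤ n) :
    IsLeast {s : ℕ | SecantFills (Fin n) k r s}
      ((n + k - 1).choose k ⌈/⌉ (r * (n - r) + (r + k - 1).choose k)) :=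
  Asy.isLeast_asymptotic n k r hk hr hn

end Pool.Agent.Results.MP_c64be1_ag.LargeN
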